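import Pool.Agent.C4U.Stmts

/-!
# Squad C4U, row CN1: good states with given first `2 k` registers
-/

set_option autoImplicit false

namespace Pool.Agent.C4U.H7

/-- the logarithmic factor -/
def LL (V : Gr) : ℕ := Nat.log 2 (V.N + 1) + 1

/-- the coordinates of the masked functions -/
noncomputable def CC (V : Gr) (a b κ : ℕ → ℕ) (i x e : ℕ) : Finset ℕ := by
  classical
  exact if a e = i then (Finset.Icc 1 (V.N + 1)).filter fun v => Lf v (V.r κ (b e) x)
    else if b e = i then (Finset.Icc 1 (V.N + 1)).filter fun v => Rt v (V.t κ (a e) i x)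
    else {0}

theorem CC_le (dyn : DynStmt) (V : Gr) (a b κ : ℕ → ℕ) (i x e : ℕ) :
    (CC V a b κ i x e).card ≤ if a e = i ∨ b e = i then LL V else 1 := by
  classical
  unfold CC LL
  by_cases h1 : a e = i
  · rw [if_pos h1, if_pos (Or.inl h1)]
    refine dyn (V.N + 1) (V.r κ (b e) x) _ ?_ (Or.inl ?_)
    · intro c hc
      exact Finset.mem_Icc.1 (Finset.mem_filter.1 hc).1
    · intro c hc
      exact (Finset.mem_filter.1 hc).2
  · rw [if_neg h1]
    by_cases h2 : b e = i
    · rw [if_pos h2, if_pos (Or.inr h2)]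
      refine dyn (V.N + 1) (V.t κ (a e) i x) _ ?_ (Or.inr ?_)
      · intro c hc
        exact Finset.mem_Icc.1 (Finset.mem_filter.1 hc).1
      · intro c hc
        exact (Finset.mem_filter.1 hc).2
    · rw [if_neg h2, if_neg (fun h => h.elim h1 h2)]
      simp

theorem K_congr (V : Gr) {c κ : ℕ → ℕ} (h : ∀ e < 2 * V.k, c e = κ e) {i : ℕ} (hi : i < V.k) :
    V.K c i = V.K κ i := by
  funext v
  unfold Gr.K
  rw [h (2 * i) (by omega), h (2 * i + 1) (by omega)]

theorem r_congr (V : Gr) {c κ : ℕ → ℕ} (h : ∀ e < 2 * V.k, c e = κ e) {j : ℕ} (hj : j < V.k)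
    (x : ℕ) : V.r c j x = V.r κ j x := by
  unfold Gr.r
  rw [K_congr V h hj]

theorem t_congr (V : Gr) {c κ : ℕ → ℕ} (h : ∀ e < 2 * V.k, c e = κ e) {i j : ℕ} (hi : i < V.k)
    (hj : j < V.k) (x : ℕ) : V.t c i j x = V.t κ i j x := by
  unfold Gr.t
  rw [K_congr V h hi, K_congr V h hj]

/-- **CN1**. -/
theorem cn1 (_cnl : CnlStmt) (stl : StlStmt) (prs : PrsStmt) (dyn : DynStmt) (csl : CslStmt)
    (box : BoxStmt) (dg : DegStmt) : Cn1Stmt := by
  classical
  intro V κ l
  obtain ⟨A, hA⟩ : ∃ A, A = {c | IsSt V.dd (V.N + 1) c ∧ ln V.dd c = l ∧ V.Ok c ∧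
    pre (2 * V.k) c = κ} := ⟨_, rfl⟩
  rw [← hA]
  have hmem : ∀ c ∈ A, IsSt V.dd (V.N + 1) c ∧ ln V.dd c = l ∧ V.Ok c ∧ pre (2 * V.k) c = κ := by
    intro c hc
    rw [hA] at hc
    exact hc
  have hL1 : 1 ≤ LL V := Nat.succ_le_succ (Nat.zero_le _)
  have hM1 : 1 ≤ ((V.N + 1) * (Nat.log 2 (V.N + 1) + 1) ^ V.k) ^ V.k :=
    Nat.one_le_pow _ _ (Nat.mul_pos (Nat.succ_pos _) (Nat.pow_pos (Nat.succ_pos _)))
  have hst : ∀ c ∈ A, l ≤ V.dd ∧ (∀ e < l, 1 ≤ c e ∧ c e ≤ V.N + 1) ∧ ∀ e, l ≤ e → c e = 0 := by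
    intro c hc
    obtain ⟨h1, h2, -, -⟩ := hmem c hc
    obtain ⟨s1, s2, s3, -⟩ := stl V.dd (V.N + 1) c (by omega) h1
    rw [h2] at s1 s2 s3
    exact ⟨s1, s2, s3⟩
  have hκ : ∀ c ∈ A, ∀ e < 2 * V.k, c e = κ e := by
    intro c hc e he
    rw [← (hmem c hc).2.2.2]
    unfold pre
    rw [if_pos he]
  rcases Nat.lt_or_ge l (2 * V.k) with hl | hl
  · -- short states
    have hsub : A ⊆ {κ} := by
      intro c hc
      obtain ⟨-, -, s3⟩ := hst c hc
      rw [Set.mem_singleton_iff, ← (hmem c hc).2.2.2]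
      funext e
      unfold pre
      split_ifs with he
      · rfl
      · exact s3 e (by omega)
    have hfin : A.Finite := (Set.finite_singleton κ).subset hsub
    refine ⟨hfin, ?_⟩
    have h1 : A.ncard ≤ 1 := by
      have := Set.ncard_le_ncard hsub (Set.finite_singleton κ)
      rwa [Set.ncard_singleton] at this
    calc A.ncard ^ 2 ≤ 1 ^ 2 := Nat.pow_le_pow_left h1 2
      _ ≤ _ := by rw [one_pow]; exact hM1
  · obtain ⟨a, b, -, hab2, -, hab4⟩ := prs
    obtain ⟨m, hm⟩ : ∃ m, m = l - 2 * V.k := ⟨_, rfl⟩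
    obtain ⟨F, hF⟩ : ∃ F : (ℕ → ℕ) → (ℕ → ℕ), ∀ c e, F c e = c (2 * V.k + e) := ⟨_, fun _ _ => rfl⟩
    have hF0 : ∀ c ∈ A, ∀ e, m ≤ e → F c e = 0 := by
      intro c hc e he
      rw [hF]
      exact (hst c hc).2.2 _ (by omega)
    have hF1 : ∀ c ∈ A, ∀ e < m, 1 ≤ F c e ∧ F c e ≤ V.N + 1 := by
      intro c hc e he
      rw [hF]
      exact (hst c hc).2.1 _ (by omega)
    have hinj : Set.InjOn F A := by
      intro c hc c' hc' heq
      funext e
      rcases Nat.lt_or_ge e (2 * V.k) with he | he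
      · rw [hκ c hc e he, hκ c' hc' e he]
      · obtain ⟨e', rfl⟩ := Nat.exists_eq_add_of_le he
        rw [← hF c e', ← hF c' e', heq]
    have hSfin : (F '' A).Finite := by
      refine (box m (fun _ => Finset.range (V.N + 2)) (F '' A) ?_).1
      rintro _ ⟨c, hc, rfl⟩
      refine ⟨fun e he => ?_, fun e he => hF0 c hc e he⟩
      rw [Finset.mem_range]
      have := (hF1 c hc e he).2
      omega
    have hAfin : A.Finite := Set.Finite.of_finite_image hSfin hinj
    refine ⟨hAfin, ?_⟩
    rcases Set.eq_empty_or_nonempty A with hemp | ⟨c₀, hc₀⟩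
    · rw [hemp, Set.ncard_empty]
      simp
    have hm1 : m ≤ V.k * (V.k - 1) / 2 := by
      have h1 := (hst c₀ hc₀).1
      unfold Gr.dd at h1
      omega
    have hcard : A.ncard = hSfin.toFinset.card := by
      rw [← Set.ncard_eq_toFinset_card _ hSfin, hinj.ncard_image]
    have habk : ∀ e < m, a e < V.k ∧ b e < V.k ∧ a e ≠ b e := by
      intro e he
      have h1 := (hab2 e).1
      have h2 := hab4 V.k e (by omega)
      omega
    have h1 := csl V.k m a b hSfin.toFinset habk (by
      intro f hf e he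
      rw [Set.Finite.mem_toFinset] at hf
      obtain ⟨c, hc, rfl⟩ := hf
      exact hF0 c hc e he)
    rw [hcard]
    refine h1.trans ?_
    have h2 : ∀ i ∈ Finset.range V.k,
        Set.ncard ((fun f : ℕ → ℕ => fun e => if a e = i ∨ b e = i then f e else 0) ''
          (hSfin.toFinset : Set (ℕ → ℕ))) ≤ (V.N + 1) * (Nat.log 2 (V.N + 1) + 1) ^ V.k := by
      intro i hi
      rw [Finset.mem_range] at hi
      -- the boxes
      obtain ⟨Bx, hBx⟩ : ∃ Bx : ℕ → Set (ℕ → ℕ), ∀ x, Bx x =
        {g | (∀ e < m, g e ∈ CC V a b κ i x e) ∧ ∀ e, m ≤ e → g e = 0} := ⟨_, fun _ => rfl⟩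
      have hB : ∀ x, (Bx x).Finite ∧ (Bx x).ncard ≤ LL V ^ V.k := by
        intro x
        have h3 := box m (CC V a b κ i x) (Bx x) (by
          intro f hf
          rw [hBx] at hf
          exact hf)
        refine ⟨h3.1, h3.2.trans ?_⟩
        calc ∏ e ∈ Finset.range m, (CC V a b κ i x e).card
            ≤ ∏ e ∈ Finset.range m, (if a e = i ∨ b e = i then LL V else 1) :=
              Finset.prod_le_prod' fun e _ => CC_le dyn V a b κ i x e
          _ = LL V ^ ((Finset.range m).filter fun e => a e = i ∨ b e = i).card := by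
              rw [Finset.prod_ite, Finset.prod_const, Finset.prod_const_one, mul_one]
          _ ≤ LL V ^ V.k := Nat.pow_le_pow_right hL1 (dg a b hab2 hab4 V.k m i hm1)
      have hcov : (fun f : ℕ → ℕ => fun e => if a e = i ∨ b e = i then f e else 0) ''
          (hSfin.toFinset : Set (ℕ → ℕ)) ⊆ ⋃ x ∈ Finset.range V.N, Bx x := by
        rintro _ ⟨f, hf, rfl⟩
        rw [Finset.mem_coe, Set.Finite.mem_toFinset] at hf
        obtain ⟨c, hc, rfl⟩ := hf
        obtain ⟨-, h4, h5, -⟩ := hmem c hc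
        have h6 := h5.2 (by rw [h4]; exact hl) i hi
        obtain ⟨x, hx, -, h7, h8⟩ := h6
        rw [h4] at h7 h8
        rw [Set.mem_iUnion₂]
        refine ⟨x, Finset.mem_range.2 hx, ?_⟩
        rw [hBx]
        refine ⟨?_, ?_⟩
        · intro e he
          obtain ⟨k1, k2, k3⟩ := habk e he
          have h9 := hF1 c hc e he
          have h10 := (hab2 e).2
          show (if a e = i ∨ b e = i then F c e else 0) ∈ CC V a b κ i x e
          unfold CC
          by_cases ha : a e = i
          · rw [if_pos (Or.inl ha), if_pos ha, Finset.mem_filter, Finset.mem_Icc]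
            refine ⟨h9, ?_⟩
            have hix : V.ix i (b e) = 2 * V.k + e := by
              unfold Gr.ix
              rw [← ha, h10]
            have h11 := h7 (b e) k2 (by rw [← ha]; exact (hab2 e).1) (by rw [hix]; omega)
            rw [hix, r_congr V (hκ c hc) k2] at h11
            rw [hF]
            exact h11
          · by_cases hb : b e = i
            · rw [if_pos (Or.inr hb), if_neg ha, if_pos hb, Finset.mem_filter, Finset.mem_Icc]
              refine ⟨h9, ?_⟩
              have hix : V.ix (a e) i = 2 * V.k + e := by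
                unfold Gr.ix
                rw [← hb, h10]
              have h11 := h8 (a e) k1 (by rw [← hb]; exact (hab2 e).1) (by rw [hix]; omega)
              rw [hix, t_congr V (hκ c hc) k1 hi] at h11
              rw [hF]
              exact h11
            · rw [if_neg ha, if_neg hb, if_neg (fun h => h.elim ha hb)]
              exact Finset.mem_singleton_self 0
        · intro e he
          show (if a e = i ∨ b e = i then F c e else 0) = 0
          rw [hF0 c hc e he, ite_self]
      have hfinU : (⋃ x ∈ Finset.range V.N, Bx x).Finite :=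
        Set.Finite.biUnion (Finset.finite_toSet _) fun x _ => (hB x).1
      have h3 : (⋃ x ∈ Finset.range V.N, Bx x).ncard ≤ V.N * LL V ^ V.k := by
        have h12 : (⋃ x ∈ Finset.range V.N, Bx x).ncard
            ≤ ∑ x ∈ Finset.range V.N, (Bx x).ncard := Finset.set_ncard_biUnion_le _ _
        refine h12.trans ?_
        refine (Finset.sum_le_sum fun x _ => (hB x).2).trans ?_
        rw [Finset.sum_const, Finset.card_range, smul_eq_mul]
      refine (Set.ncard_le_ncard hcov hfinU).trans (h3.trans ?_)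
      exact Nat.mul_le_mul_right _ (Nat.le_succ _)
    refine (Finset.prod_le_prod' h2).trans ?_
    rw [Finset.prod_const, Finset.card_range]

end Pool.Agent.C4U.H7
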