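import Pool.Agent.C4U.Stmts

/-!
# Squad C4U, row PRS: the numbers of the pairs `i < j`
-/

set_option autoImplicit false

namespace Pool.Agent.C4U.H7

/-- triangular numbers -/
def tri (j : ℕ) : ℕ := j * (j - 1) / 2

theorem tri_succ (j : ℕ) : tri (j + 1) = tri j + j := Nat.triangle_succ j

theorem tri_mono {i j : ℕ} (h : i ≤ j) : tri i ≤ tri j := by
  induction j, h using Nat.le_induction with
  | base => exact le_refl _
  | succ j _ ih => rw [tri_succ]; omega

theorem tri_ge (j : ℕ) : j ≤ tri (j + 1) := by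
  rw [tri_succ]
  omega

theorem lt_of_tri {i j : ℕ} (h : tri i < tri j) : i < j := by
  by_contra hc
  have := tri_mono (Nat.le_of_not_lt hc)
  omega

/-- the larger element -/
noncomputable def bb (e : ℕ) : ℕ := by
  classical exact Nat.findGreatest (fun j => tri j ≤ e) (e + 1)

theorem bb_spec (e : ℕ) : tri (bb e) ≤ e ∧ e < tri (bb e + 1) := by
  classical
  have h1 : tri 1 ≤ e := Nat.zero_le _
  have h2 : tri (bb e) ≤ e :=
    Nat.findGreatest_spec (P := fun j => tri j ≤ e) (n := e + 1) (m := 1) (by omega) h1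
  refine ⟨h2, ?_⟩
  by_contra hc
  have h3 : tri (bb e + 1) ≤ e := Nat.le_of_not_lt hc
  have h4 : bb e ≤ e := (tri_ge (bb e)).trans h3
  have h5 : bb e + 1 ≤ bb e :=
    Nat.le_findGreatest (P := fun j => tri j ≤ e) (n := e + 1) (by omega) h3
  omega

/-- **PRS**. -/
theorem prs : PrsStmt := by
  refine ⟨fun e => e - tri (bb e), bb, ?_, ?_, ?_, ?_⟩
  · intro i j hij
    show tri j + i - tri (bb (tri j + i)) = i ∧ bb (tri j + i) = j
    obtain ⟨h1, h2⟩ := bb_spec (tri j + i)
    have h3 : bb (tri j + i) < j + 1 := lt_of_tri (by rw [tri_succ j]; omega)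
    have h4 : j < bb (tri j + i) + 1 := lt_of_tri (by omega)
    have h5 : bb (tri j + i) = j := by omega
    refine ⟨?_, h5⟩
    rw [h5]
    omega
  · intro e
    show e - tri (bb e) < bb e ∧ tri (bb e) + (e - tri (bb e)) = e
    obtain ⟨h1, h2⟩ := bb_spec e
    rw [tri_succ] at h2
    omega
  · intro k i j hij hjk
    show tri j + i < tri k
    have h1 : tri (j + 1) ≤ tri k := tri_mono hjk
    rw [tri_succ] at h1
    omega
  · intro k e he
    obtain ⟨h1, -⟩ := bb_spec e
    exact lt_of_tri (lt_of_le_of_lt h1 he)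

end Pool.Agent.C4U.H7
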